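import Pool.Agent.Q290.WSP.Final

/-!
# Weakly support-preserving convolution endomorphisms on the naturals

The conjecture is false. There are infinitely many weakly support-preserving endomorphisms of the
convolution semigroup of finitely supported probability measures on `ℕ` which are none of the
tilting maps `Φ_β` and different from `Φ_max` and `Φ_min`.

For a valuation `v` of the field of real numbers let `Ψ[μ]` be the point mass at the least `j` at
which the valuation `v (μ(j))` is largest. The map `Ψ` is an endomorphism by the lemma of Gauss.
For each prime `p` one takes a valuation of the real numbers which extends the `p`-adic one.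
-/

set_option autoImplicit false

namespace Pool.Agent.Results.MP_aec1ed_pr.ValuationEndomorphisms

open Q290.WSP

theorem result : {Ψ : FinProb → FinProb | IsEndomorphism Ψ ∧ IsWeaklySupportPreserving Ψ ∧
    (∀ β : ℝ, ¬ IsTilting β Ψ) ∧ ¬ IsMaxMap Ψ ∧ ¬ IsMinMap Ψ}.Infinite :=
  exotic_infinite

end Pool.Agent.Results.MP_aec1ed_pr.ValuationEndomorphisms
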